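import Pool.Agent.N229.PG.Stm

/-! Project PG, leaf Q1: the configuration. -/

set_option autoImplicit false

namespace PG

open Complex Filter Topology Metric Set

lemma q1_bb_pos (m : ℕ) : 0 < bb m := by unfold bb; positivity

lemma q1_bb_le (m : ℕ) : bb m ≤ 1 / 2 := by
  unfold bb
  calc (1 / 2 : ℝ) ^ (m + 1) ≤ (1 / 2 : ℝ) ^ 1 :=
        pow_le_pow_of_le_one (by norm_num) (by norm_num) (by omega)
    _ = 1 / 2 := pow_one _

lemma q1_tt {N : ℕ → ℕ} (hN : ∀ m, 1 ≤ N m) (p : Σ m : ℕ, Fin (N m)) :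
    bb p.1 ≤ tt N p ∧ tt N p ≤ 2 * bb p.1 := by
  have hb := q1_bb_pos p.1
  have hn : (0 : ℝ) < N p.1 := by exact_mod_cast hN p.1
  have hj : ((p.2 : ℕ) : ℝ) ≤ N p.1 := by exact_mod_cast p.2.2.le
  have h0 : 0 ≤ ((p.2 : ℕ) : ℝ) / (N p.1 : ℝ) := by positivity
  have h1 : ((p.2 : ℕ) : ℝ) / (N p.1 : ℝ) ≤ 1 := by rw [div_le_one hn]; exact hj
  unfold tt
  constructor <;> nlinarith

lemma q1_alpha {α : ℝ} (h0 : 0 < α) (m : ℕ) : (bb m ^ (1 / α)) ^ α = bb m := by
  rw [← Real.rpow_mul (q1_bb_pos m).le, one_div_mul_cancel h0.ne', Real.rpow_one]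

lemma q1_sig {α : ℝ} (m : ℕ) :
    (bb m ^ (1 / α)) ^ (1 - α) = bb m ^ ((1 - α) / α) := by
  rw [← Real.rpow_mul (q1_bb_pos m).le]
  congr 1
  ring

lemma q1_back {α : ℝ} (h0 : 0 < α) (h1 : α < 1) (m : ℕ) :
    (bb m ^ ((1 - α) / α)) ^ (α / (1 - α)) = bb m := by
  rw [← Real.rpow_mul (q1_bb_pos m).le]
  have h2 : (1 - α) ≠ 0 := by linarith
  have h3 : (1 - α) / α * (α / (1 - α)) = 1 := by
    field_simp
  rw [h3, Real.rpow_one]

lemma q1_summable {α : ℝ} {N : ℕ → ℕ}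
    (hsum : Summable (fun m => (N m : ℝ) * bb m ^ ((1 - α) / α))) :
    Summable (fun p : (Σ m : ℕ, Fin (N m)) => bb p.1 ^ ((1 - α) / α)) := by
  rw [summable_sigma_of_nonneg (fun p => Real.rpow_nonneg (q1_bb_pos p.1).le _)]
  refine ⟨fun m => Summable.of_finite, ?_⟩
  refine hsum.congr fun m => ?_
  rw [tsum_fintype]
  simp

theorem leaf_Q1 : StmX → StmQ1 := by
  intro hX α h0 h1 N C hN hsum hT
  obtain ⟨hX1, -⟩ := hX
  have hsig := q1_summable hsum
  have ht0 : ∀ p, 0 ≤ tt N p := fun p => (q1_bb_pos p.1).le.trans (q1_tt hN p).1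
  have ht1 : ∀ p, tt N p ≤ 1 := fun p => by
    have := (q1_tt hN p).2
    have := q1_bb_le p.1
    linarith
  have hC2 : (2 : ℝ) ≤ max 2 C := le_max_left _ _
  refine ⟨max 2 C, ⟨by linarith, fun k => (hX1 _ (ht0 k) (ht1 k)).1, fun k => (hX1 _ (ht0 k) (ht1 k)).2.2.1,
    fun k => (hX1 _ (ht0 k) (ht1 k)).2.2.2, fun k => Real.rpow_pos_of_pos (q1_bb_pos _) _, fun k => ?_,
    fun k => ?_, fun k => ?_, ?_, fun z hz hz1 => ?_, ?_⟩⟩
  · refine Real.rpow_le_one (q1_bb_pos _).le ?_ (by positivity)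
    have := q1_bb_le k.1
    linarith
  · rw [(hX1 _ (ht0 k) (ht1 k)).2.1, q1_alpha h0]
    refine (q1_tt hN k).2.trans ?_
    exact mul_le_mul_of_nonneg_right hC2 (q1_bb_pos _).le
  · rw [(hX1 _ (ht0 k) (ht1 k)).2.1, q1_alpha h0]
    refine (q1_tt hN k).1.trans ?_
    have := ht0 k
    nlinarith
  · refine hsig.congr fun k => ?_
    rw [q1_sig]
  · have hpos : 0 < ‖1 - z‖ := norm_pos_iff.2 (sub_ne_zero.2 (Ne.symm hz1))
    obtain ⟨g1, g2⟩ := hT _ hpos
    have hle : ∀ k : (Σ m : ℕ, Fin (N m)),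
        (bb k.1 ^ (1 / α)) ^ (1 - α) / (bb k.1 ^ (1 / α) + ‖z - pt (tt N k)‖) ≤
          TT α N ‖1 - z‖ k := by
      intro k
      unfold TT
      rw [q1_sig]
      have e1 : 0 < bb k.1 ^ (1 / α) := Real.rpow_pos_of_pos (q1_bb_pos _) _
      have e2 : |‖1 - z‖ - tt N k| ≤ ‖z - pt (tt N k)‖ := by
        have e3 := abs_norm_sub_norm_le (1 - z) (1 - pt (tt N k))
        rw [(hX1 _ (ht0 k) (ht1 k)).2.1] at e3
        refine e3.trans (le_of_eq ?_)
        rw [show (1 - z) - (1 - pt (tt N k)) = -(z - pt (tt N k)) by ring, norm_neg]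
      refine div_le_div_of_nonneg_left (Real.rpow_nonneg (q1_bb_pos _).le _) ?_ ?_
      · have := abs_nonneg (‖1 - z‖ - tt N k)
        linarith
      · linarith
    have hnn : ∀ k : (Σ m : ℕ, Fin (N m)),
        0 ≤ (bb k.1 ^ (1 / α)) ^ (1 - α) / (bb k.1 ^ (1 / α) + ‖z - pt (tt N k)‖) := by
      intro k
      have e1 : 0 < bb k.1 ^ (1 / α) := Real.rpow_pos_of_pos (q1_bb_pos _) _
      positivity
    have hs := Summable.of_nonneg_of_le hnn hle g1
    refine ⟨hs, (hs.tsum_le_tsum hle g1).trans (g2.trans ?_)⟩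
    exact div_le_div_of_nonneg_right (le_max_right _ _) hpos.le
  · have hlim : Tendsto (fun p : (Σ m : ℕ, Fin (N m)) => pt (tt N p)) cofinite (𝓝 1) := by
      rw [tendsto_iff_norm_sub_tendsto_zero]
      have e1 := hsig.tendsto_cofinite_zero
      have hq : 0 < α / (1 - α) := div_pos h0 (by linarith)
      have e2 : Tendsto (fun x : ℝ => x ^ (α / (1 - α))) (𝓝 0) (𝓝 0) := by
        have := (Real.continuousAt_rpow_const (0 : ℝ) (α / (1 - α)) (Or.inr hq.le)).tendsto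
        rwa [Real.zero_rpow hq.ne'] at this
      have e3 := e2.comp e1
      have e4 : Tendsto (fun p : (Σ m : ℕ, Fin (N m)) => 2 * bb p.1) cofinite (𝓝 0) := by
        have := e3.const_mul 2
        rw [mul_zero] at this
        refine this.congr fun p => ?_
        simp only [Function.comp_apply]
        rw [q1_back h0 h1]
      refine squeeze_zero (fun p => norm_nonneg _) (fun p => ?_) e4
      rw [norm_sub_rev, (hX1 _ (ht0 p) (ht1 p)).2.1]
      exact (q1_tt hN p).2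
    exact (Filter.Tendsto.isCompact_insert_range_of_cofinite hlim).isClosed

end PG
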